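import Pool.Agent.helper11.SG.Cube

/-! # Digit expansions: general step, and polynomials -/

namespace Pool.Agent.helper11.SG

open Polynomial

/-- one digit step: combine residue classes, a free digit and a family -/
def comb {A : Type*} [CommRing A] (π : A) (s : A × A × A) (ρ : A) (t : A × A × A) : A × A × A :=
  (s.1 + π * t.1, s.2.1 + π * t.2.1,
    s.2.2 + π * ρ + π * (s.1 * t.2.1 - s.2.1 * t.1) + π ^ 2 * t.2.2)

lemma fam_comb {A E : Type*} [CommRing A] [IsDomain A] [CommRing E] (ev : A →+* E) {π : A}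
    (hπ : ev π = 0) (hπ0 : π ≠ 0) {ι₀ ι₁ ι₂ : Type*} {P₀ : ι₀ → A × A × A} {ρ : ι₁ → A}
    {P₁ : ι₂ → A × A × A} (h0 : ∀ i j, i ≠ j → ev (dis (P₀ i) (P₀ j)) ≠ 0)
    (h1 : ∀ i j, i ≠ j → ev (ρ i) ≠ ev (ρ j)) (h2 : Fam P₁) :
    Fam (fun v : ι₀ × ι₁ × ι₂ => comb π (P₀ v.1) (ρ v.2.1) (P₁ v.2.2)) := by
  rintro ⟨i, j, l⟩ ⟨i', j', l'⟩ hne h
  by_cases hi : i = i'
  · subst hi
    have e : dis (comb π (P₀ i) (ρ j) (P₁ l)) (comb π (P₀ i) (ρ j') (P₁ l')) =
        π * ((ρ j' - ρ j) + π * dis (P₁ l) (P₁ l')) := by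
      simp only [dis, comb]; ring
    simp only at h
    rw [e] at h
    have h3 := (mul_eq_zero.1 h).resolve_left hπ0
    by_cases hj : j = j'
    · subst hj
      rw [sub_self, zero_add] at h3
      have h4 := (mul_eq_zero.1 h3).resolve_left hπ0
      have hl : l ≠ l' := by
        intro hl
        apply hne
        rw [hl]
      exact h2 l l' hl h4
    · have h4 := congrArg ev h3
      rw [map_add, map_mul, hπ, zero_mul, add_zero, map_zero, map_sub, sub_eq_zero] at h4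
      exact h1 j j' hj h4.symm
  · apply h0 i i' hi
    have h3 := congrArg ev h
    simp only [dis, comb, map_sub, map_add, map_mul, map_pow, hπ, map_zero] at h3 ⊢
    linear_combination h3

/-- families of polynomial points of bounded degree -/
def HB (k : Type) [Field k] (g n : ℕ) : Prop :=
  ∃ (ι : Type) (_ : Fintype ι) (P : ι → k[X] × k[X] × k[X]), n ≤ Fintype.card ι ∧ Fam P ∧
    ∀ i, (P i).1.natDegree ≤ g ∧ (P i).2.1.natDegree ≤ g ∧ (P i).2.2.natDegree ≤ 2 * g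

lemma natDegree_comb {k : Type} [Field k] {π : k[X]} (hπ : π.natDegree = 3) {g : ℕ}
    {s t : k[X] × k[X] × k[X]} {ρ : k[X]} (h1 : s.1.natDegree ≤ 2) (h2 : s.2.1.natDegree ≤ 2)
    (h3 : s.2.2.natDegree ≤ 2) (h4 : ρ.natDegree ≤ 2) (h5 : t.1.natDegree ≤ g)
    (h6 : t.2.1.natDegree ≤ g) (h7 : t.2.2.natDegree ≤ 2 * g) :
    (comb π s ρ t).1.natDegree ≤ g + 3 ∧ (comb π s ρ t).2.1.natDegree ≤ g + 3 ∧
      (comb π s ρ t).2.2.natDegree ≤ 2 * (g + 3) := by
  have m : ∀ {a b : k[X]} {x y z : ℕ}, a.natDegree ≤ x → b.natDegree ≤ y → x + y ≤ z →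
      (a * b).natDegree ≤ z := fun ha hb hz => natDegree_mul_le.trans ((add_le_add ha hb).trans hz)
  have a : ∀ {a b : k[X]} {z : ℕ}, a.natDegree ≤ z → b.natDegree ≤ z →
      (a + b).natDegree ≤ z := fun ha hb => (natDegree_add_le _ _).trans (max_le ha hb)
  have sb : ∀ {a b : k[X]} {z : ℕ}, a.natDegree ≤ z → b.natDegree ≤ z →
      (a - b).natDegree ≤ z := fun ha hb => (natDegree_sub_le _ _).trans (max_le ha hb)
  have hπ2 : (π ^ 2).natDegree ≤ 6 := by
    rw [natDegree_pow, hπ]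
  refine ⟨a (by omega) (m hπ.le h5 (by omega)), a (by omega) (m hπ.le h6 (by omega)), ?_⟩
  refine a (a (a (by omega) (m hπ.le h4 (by omega))) (m hπ.le (sb (m h1 h6 le_rfl)
    (m h2 h5 le_rfl)) (by omega))) (m hπ2 h7 (by omega))

/-- a generator of a finite field over its prime field -/
lemma exists_gen {p : ℕ} [Fact p.Prime] {K : Type*} [Field K] [Finite K] [Algebra (ZMod p) K]
    {h : ℕ} (hh : Nat.card K = p ^ h) :
    ∃ β : K, (minpoly (ZMod p) β).natDegree = h := by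
  have := Fintype.ofFinite K
  have hfin : Module.Finite (ZMod p) K := Module.Finite.of_finite
  obtain ⟨β, hβ⟩ := Field.exists_primitive_element (ZMod p) K
  refine ⟨β, ?_⟩
  rw [(Field.primitive_element_iff_minpoly_natDegree_eq (ZMod p) β).1 hβ]
  have h1 := Module.card_eq_pow_finrank (K := ZMod p) (V := K)
  rw [ZMod.card, ← Nat.card_eq_fintype_card, hh] at h1
  exact (Nat.pow_right_injective (Fact.out : p.Prime).two_le h1).symm

lemma aeval_ne_zero {p : ℕ} [Fact p.Prime] {K : Type*} [Field K] [Finite K] [Algebra (ZMod p) K]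
    {β : K} {t : (ZMod p)[X]} (ht : t ≠ 0) (hd : t.natDegree < (minpoly (ZMod p) β).natDegree) :
    aeval β t ≠ 0 := by
  intro h
  have h1 := minpoly.degree_le_of_ne_zero (ZMod p) β ht h
  have h2 := natDegree_le_natDegree h1
  omega

lemma exists_lift {p : ℕ} [Fact p.Prime] {K : Type*} [Field K] [Finite K] [Algebra (ZMod p) K]
    {β : K} (hβ : (minpoly (ZMod p) β).natDegree = 3) (hK : Nat.card K = p ^ 3) (x : K) :
    ∃ q : (ZMod p)[X], q.natDegree ≤ 2 ∧ aeval β q = x := by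
  have := Fintype.ofFinite K
  have hfin : Module.Finite (ZMod p) K := Module.Finite.of_finite
  let L : (degreeLT (ZMod p) 3) →ₗ[ZMod p] K :=
    (aeval β).toLinearMap.comp (degreeLT (ZMod p) 3).subtype
  have hL : ∀ q : degreeLT (ZMod p) 3, L q = aeval β q.1 := fun q => rfl
  have hdeg : ∀ q : degreeLT (ZMod p) 3, q.1 ≠ 0 → q.1.natDegree < 3 := by
    intro q hq
    have := mem_degreeLT.1 q.2
    rw [degree_eq_natDegree hq] at this
    exact_mod_cast this
  have hinj : Function.Injective L := by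
    rw [← LinearMap.ker_eq_bot, LinearMap.ker_eq_bot']
    intro q hq
    by_contra h0
    have h1 : q.1 ≠ 0 := fun h => h0 (Subtype.ext h)
    refine aeval_ne_zero (β := β) h1 ?_ (by rw [← hL]; exact hq)
    rw [hβ]
    exact hdeg q h1
  have hfr : Module.finrank (ZMod p) (degreeLT (ZMod p) 3) = Module.finrank (ZMod p) K := by
    rw [LinearEquiv.finrank_eq (degreeLTEquiv (ZMod p) 3), Module.finrank_fin_fun]
    have h1 := Module.card_eq_pow_finrank (K := ZMod p) (V := K)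
    rw [ZMod.card, ← Nat.card_eq_fintype_card, hK] at h1
    exact Nat.pow_right_injective (Fact.out : p.Prime).two_le h1
  have hfin2 : Module.Finite (ZMod p) (degreeLT (ZMod p) 3) :=
    Module.Finite.equiv (degreeLTEquiv (ZMod p) 3).symm
  obtain ⟨q, hq⟩ := (LinearMap.injective_iff_surjective_of_finrank_eq_finrank hfr).1 hinj x
  refine ⟨q.1, ?_, by rw [← hL]; exact hq⟩
  by_cases h0 : q.1 = 0
  · rw [h0]; simp
  · have := hdeg q h0
    omega

/-- residues: `p^5` classes modulo an irreducible cubic, and the free digits -/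
lemma exists_digits (p : ℕ) [Fact p.Prime] :
    ∃ (E : Type) (_ : Field E) (ev : (ZMod p)[X] →+* E) (π : (ZMod p)[X]) (ι : Type)
      (_ : Fintype ι) (P : ι → (ZMod p)[X] × (ZMod p)[X] × (ZMod p)[X]),
      ev π = 0 ∧ π.natDegree = 3 ∧ p ^ 5 ≤ Fintype.card ι ∧
      (∀ i j, i ≠ j → ev (dis (P i) (P j)) ≠ 0) ∧
      (∀ i, (P i).1.natDegree ≤ 2 ∧ (P i).2.1.natDegree ≤ 2 ∧ (P i).2.2.natDegree ≤ 2) ∧
      (∀ q : (ZMod p)[X], q ≠ 0 → q.natDegree ≤ 2 → ev q ≠ 0) := by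
  classical
  let E := GaloisField p 3
  have hE : Nat.card E = p ^ 3 := GaloisField.card p 3 (by norm_num)
  obtain ⟨β, hβ⟩ := exists_gen (p := p) (K := E) hE
  obtain ⟨S, hS, hS2⟩ := big_cube hE
  choose L hL1 hL2 using exists_lift (p := p) (K := E) hβ hE
  refine ⟨E, inferInstance, (aeval β).toRingHom, minpoly (ZMod p) β, S, inferInstance,
    fun i => (L i.1.1, L i.1.2.1, L i.1.2.2), ?_, hβ, ?_, ?_, ?_, ?_⟩
  · exact minpoly.aeval _ _
  · rw [Fintype.card_coe]; exact hS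
  · intro i j hij
    have h1 : i.1 ≠ j.1 := fun h => hij (Subtype.ext h)
    have h2 := hS2 i.1 i.2 j.1 j.2 h1
    simp only [dis] at h2 ⊢
    simpa [hL2] using h2
  · intro i
    exact ⟨hL1 _, hL1 _, hL1 _⟩
  · intro q hq hd
    exact aeval_ne_zero hq (by rw [hβ]; omega)

/-- polynomials of degree at most `d` -/
lemma exists_rho (p : ℕ) [Fact p.Prime] (d : ℕ) :
    ∃ ρ : (Fin (d + 1) → ZMod p) → (ZMod p)[X], Function.Injective ρ ∧
      ∀ v, (ρ v).natDegree ≤ d := by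
  refine ⟨fun v => ((degreeLTEquiv (ZMod p) (d + 1)).symm v).1, ?_, ?_⟩
  · intro v w h
    exact (degreeLTEquiv (ZMod p) (d + 1)).symm.injective (Subtype.ext h)
  · intro v
    have h1 := mem_degreeLT.1 ((degreeLTEquiv (ZMod p) (d + 1)).symm v).2
    by_cases h0 : ((degreeLTEquiv (ZMod p) (d + 1)).symm v).1 = 0
    · simp only [h0]; simp
    · rw [degree_eq_natDegree h0] at h1
      have h2 : ((degreeLTEquiv (ZMod p) (d + 1)).symm v).1.natDegree < d + 1 := by exact_mod_cast h1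
      exact Nat.lt_succ_iff.1 h2

lemma HB_step (p : ℕ) [Fact p.Prime] {g n : ℕ} (h : HB (ZMod p) g n) :
    HB (ZMod p) (g + 3) (p ^ 8 * n) := by
  classical
  obtain ⟨E, _, ev, π, ι, _, P, hπ, hπ3, hι, hP, hPd, hev⟩ := exists_digits p
  obtain ⟨ρ, hρ, hρd⟩ := exists_rho p 2
  obtain ⟨κ, _, Q, hκ, hQ, hQd⟩ := h
  have hπ0 : π ≠ 0 := by
    intro h0
    rw [h0] at hπ3
    simp at hπ3
  refine ⟨ι × (Fin 3 → ZMod p) × κ, inferInstance, fun v => comb π (P v.1) (ρ v.2.1) (Q v.2.2),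
    ?_, fam_comb ev hπ hπ0 hP ?_ hQ, ?_⟩
  · rw [Fintype.card_prod, Fintype.card_prod, Fintype.card_fun, ZMod.card, Fintype.card_fin]
    calc p ^ 8 * n = p ^ 5 * (p ^ 3 * n) := by ring
      _ ≤ _ := Nat.mul_le_mul hι (Nat.mul_le_mul le_rfl hκ)
  · intro i j hij h0
    rw [← sub_eq_zero, ← map_sub] at h0
    refine hev _ (sub_ne_zero.2 (hρ.ne hij)) ?_ h0
    exact (natDegree_sub_le _ _).trans (max_le (hρd _) (hρd _))
  · rintro ⟨i, j, l⟩
    obtain ⟨h1, h2, h3⟩ := hPd i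
    obtain ⟨h4, h5, h6⟩ := hQd l
    exact natDegree_comb hπ3 h1 h2 h3 (hρd _) h4 h5 h6

lemma fam_unit {A : Type*} [CommRing A] : Fam (fun _ : Unit => ((0, 0, 0) : A × A × A)) := by
  intro i j hij
  exact absurd (Subsingleton.elim i j) hij

lemma natDegree_comb_zero {k : Type} [Field k] {π : k[X]} (hπ : π.natDegree = 3)
    {s : k[X] × k[X] × k[X]} {ρ : k[X]} (h1 : s.1.natDegree ≤ 2) (h2 : s.2.1.natDegree ≤ 2)
    (h3 : s.2.2.natDegree ≤ 2) (h4 : ρ.natDegree ≤ 1) :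
    (comb π s ρ (0, 0, 0)).1.natDegree ≤ 2 ∧ (comb π s ρ (0, 0, 0)).2.1.natDegree ≤ 2 ∧
      (comb π s ρ (0, 0, 0)).2.2.natDegree ≤ 2 * 2 := by
  simp only [comb, mul_zero, add_zero, sub_self]
  refine ⟨h1, h2, (natDegree_add_le _ _).trans (max_le (by omega) ?_)⟩
  refine natDegree_mul_le.trans ?_
  omega

lemma HB_two (p : ℕ) [Fact p.Prime] : HB (ZMod p) 2 (p ^ 7) := by
  obtain ⟨E, _, ev, π, ι, _, P, hπ, hπ3, hι, hP, hPd, hev⟩ := exists_digits p
  obtain ⟨ρ, hρ, hρd⟩ := exists_rho p 1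
  have hπ0 : π ≠ 0 := by
    intro h0
    rw [h0] at hπ3
    simp at hπ3
  have hρ2 : ∀ i j, i ≠ j → ev (ρ i) ≠ ev (ρ j) := by
    intro i j hij h0
    rw [← sub_eq_zero, ← map_sub] at h0
    refine hev _ (sub_ne_zero.2 (hρ.ne hij)) ?_ h0
    exact (natDegree_sub_le _ _).trans (max_le ((hρd _).trans (by norm_num))
      ((hρd _).trans (by norm_num)))
  have hF := fam_comb ev hπ hπ0 hP hρ2 (fam_unit (A := (ZMod p)[X]))
  refine ⟨ι × (Fin (1 + 1) → ZMod p) × Unit, inferInstance, _, ?_, hF, ?_⟩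
  · rw [Fintype.card_prod, Fintype.card_prod, Fintype.card_fun, ZMod.card, Fintype.card_fin,
      Fintype.card_unit, mul_one]
    calc p ^ 7 = p ^ 5 * p ^ 2 := by ring
      _ ≤ _ := Nat.mul_le_mul hι le_rfl
  · rintro ⟨i, j, l⟩
    obtain ⟨h1, h2, h3⟩ := hPd i
    exact natDegree_comb_zero hπ3 h1 h2 h3 (hρd j)

lemma HB_zero {k : Type} [Field k] {n : ℕ} (h : Big k n) : HB k 0 n := by
  obtain ⟨S, hS, hS2⟩ := h
  refine ⟨S, inferInstance, fun i => (C i.1.1, C i.1.2.1, C i.1.2.2), ?_, ?_, ?_⟩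
  · rw [Fintype.card_coe]; exact hS
  · intro i j hij h0
    have h1 : i.1 ≠ j.1 := fun h => hij (Subtype.ext h)
    apply hS2 i.1 i.2 j.1 j.2 h1
    simp only [dis] at h0 ⊢
    apply C_injective
    simpa using h0
  · intro i
    simp

lemma HB_big {p : ℕ} [Fact p.Prime] {K : Type*} [Field K] [Finite K] [Algebra (ZMod p) K]
    {h g n : ℕ} (hK : Nat.card K = p ^ h) (hg : 2 * g < h) (hn : HB (ZMod p) g n) : Big K n := by
  classical
  obtain ⟨ι, _, P, hι, hP, hPd⟩ := hn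
  obtain ⟨β, hβ⟩ := exists_gen (p := p) (K := K) hK
  refine Fam.big (P := fun i => (aeval β (P i).1, aeval β (P i).2.1, aeval β (P i).2.2)) ?_ hι
  intro i j hij h0
  refine aeval_ne_zero (β := β) (hP i j hij) ?_ ?_
  · rw [hβ]
    refine lt_of_le_of_lt ?_ hg
    obtain ⟨h1, h2, h3⟩ := hPd i
    obtain ⟨h4, h5, h6⟩ := hPd j
    refine (natDegree_sub_le _ _).trans (max_le ((natDegree_sub_le _ _).trans (max_le h6 h3))
      ((natDegree_sub_le _ _).trans (max_le ?_ ?_)))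
    · exact natDegree_mul_le.trans (by omega)
    · exact natDegree_mul_le.trans (by omega)
  · simp only [dis] at h0 ⊢
    simpa using h0

lemma HB_iter (p : ℕ) [Fact p.Prime] {g n : ℕ} (h : HB (ZMod p) g n) (j : ℕ) :
    HB (ZMod p) (g + 3 * j) (p ^ (8 * j) * n) := by
  induction j with
  | zero => simpa using h
  | succ j ih =>
    have := HB_step p ih
    have e1 : g + 3 * (j + 1) = g + 3 * j + 3 := by ring
    have e2 : p ^ (8 * (j + 1)) * n = p ^ 8 * (p ^ (8 * j) * n) := by ring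
    rw [e1, e2]
    exact this

end Pool.Agent.helper11.SG
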