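import Pool.Agent.helper11.SG.Basic

/-! # Prime fields: the base 2 digit construction

The integer part is taken from the hand-in `PrimeFieldLowerBound` of the same team. -/

namespace Pool.Agent.helper11.SG

/-! ### The integer digit construction -/

/-- digits -/
def D : Finset (ℤ × ℤ × ℤ) :=
  {(0, 0, 0), (0, 0, 2), (1, 0, 1), (1, 0, 3), (0, 1, 1), (0, 1, 3), (1, 1, 1), (1, 1, 3)}

/-- one digit step -/
def step (d x : ℤ × ℤ × ℤ) : ℤ × ℤ × ℤ :=
  (d.1 + 2 * x.1, d.2.1 + 2 * x.2.1,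
    d.2.2 + 4 * x.2.2 + 2 * (d.1 * x.2.1 - d.2.1 * x.1))

/-- the sets -/
def A : ℕ → Finset (ℤ × ℤ × ℤ)
  | 0 => {(0, 0, 0)}
  | n + 1 => (D ×ˢ A n).image (fun q => step q.1 q.2)

/-- discrepancy -/
def disc (x y : ℤ × ℤ × ℤ) : ℤ := y.2.2 - x.2.2 - (x.1 * y.2.1 - x.2.1 * y.1)

lemma disc_step (d e x y : ℤ × ℤ × ℤ) :
    disc (step d x) (step e y) = disc d e +
      2 * ((e.1 - d.1) * (x.2.1 + y.2.1) - (e.2.1 - d.2.1) * (x.1 + y.1)) + 4 * disc x y := by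
  simp only [disc, step]; ring

lemma D_key : ∀ d ∈ D, ∀ e ∈ D, d ≠ e →
    (disc d e % 2 = 1) ∨ (d.1 = e.1 ∧ d.2.1 = e.2.1 ∧ disc d e % 4 = 2) := by
  decide

lemma D_bound : ∀ d ∈ D, 0 ≤ d.1 ∧ d.1 ≤ 1 ∧ 0 ≤ d.2.1 ∧ d.2.1 ≤ 1 ∧ 0 ≤ d.2.2 ∧ d.2.2 ≤ 3 := by
  decide

lemma A_disc (n : ℕ) : ∀ x ∈ A n, ∀ y ∈ A n, x ≠ y → disc x y ≠ 0 := by
  induction n with
  | zero =>
    intro x hx y hy hxy
    simp only [A, Finset.mem_singleton] at hx hy
    exact absurd (hx.trans hy.symm) hxy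
  | succ n ih =>
    intro x hx y hy hxy h0
    simp only [A, Finset.mem_image, Finset.mem_product, Prod.exists] at hx hy
    obtain ⟨d1, d2, d3, x1, x2, x3, ⟨hd, hx'⟩, rfl⟩ := hx
    obtain ⟨e1, e2, e3, y1, y2, y3, ⟨he, hy'⟩, rfl⟩ := hy
    rw [disc_step] at h0
    by_cases hde : ((d1, d2, d3) : ℤ × ℤ × ℤ) = (e1, e2, e3)
    · have hxy' : ((x1, x2, x3) : ℤ × ℤ × ℤ) ≠ (y1, y2, y3) := by
        intro h
        exact hxy (by rw [hde, h])
      have := ih _ hx' _ hy' hxy'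
      apply this
      rw [hde] at h0
      simp only [disc] at h0 ⊢
      linarith
    · rcases D_key _ hd _ he hde with h | ⟨h1, h2, h⟩
      · omega
      · simp only at h1 h2
        rw [h1, h2] at h0
        simp only [sub_self, zero_mul, mul_zero, add_zero] at h0
        rw [h1, h2] at h
        omega

lemma step_inj (n : ℕ) : Set.InjOn (fun q : (ℤ × ℤ × ℤ) × (ℤ × ℤ × ℤ) => step q.1 q.2)
    (D ×ˢ A n : Finset _) := by
  rintro ⟨⟨d1, d2, d3⟩, ⟨x1, x2, x3⟩⟩ hx ⟨⟨e1, e2, e3⟩, ⟨y1, y2, y3⟩⟩ hy h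
  simp only [Finset.coe_product, Set.mem_prod, Finset.mem_coe] at hx hy
  have hd := D_bound _ hx.1
  have he := D_bound _ hy.1
  simp only [step, Prod.mk.injEq] at h hd he
  obtain ⟨h1, h2, h3⟩ := h
  have a1 : d1 = e1 := by omega
  have a2 : d2 = e2 := by omega
  have b1 : x1 = y1 := by omega
  have b2 : x2 = y2 := by omega
  subst a1 a2 b1 b2
  have a3 : d3 = e3 := by omega
  have b3 : x3 = y3 := by omega
  subst a3 b3
  rfl

lemma A_card (n : ℕ) : (A n).card = 8 ^ n := by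
  induction n with
  | zero => simp [A]
  | succ n ih =>
    rw [A, Finset.card_image_of_injOn (step_inj n), Finset.card_product, ih]
    have : D.card = 8 := by decide
    rw [this, pow_succ, mul_comm]

lemma A_bound (n : ℕ) : ∀ x ∈ A n, 0 ≤ x.1 ∧ x.1 ≤ 2 ^ n - 1 ∧ 0 ≤ x.2.1 ∧ x.2.1 ≤ 2 ^ n - 1 ∧
    3 * |x.2.2| ≤ 4 * 4 ^ n - 3 * 2 ^ n - 1 := by
  induction n with
  | zero =>
    intro x hx
    simp only [A, Finset.mem_singleton] at hx
    subst hx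
    simp
  | succ n ih =>
    intro x hx
    simp only [A, Finset.mem_image, Finset.mem_product, Prod.exists] at hx
    obtain ⟨d1, d2, d3, x1, x2, x3, ⟨hd, hx'⟩, rfl⟩ := hx
    obtain ⟨k1, k2, k3, k4, k5, k6⟩ := D_bound _ hd
    obtain ⟨l1, l2, l3, l4, l5⟩ := ih _ hx'
    simp only at k1 k2 k3 k4 k5 k6 l1 l2 l3 l4 l5
    simp only [step]
    have e2 : (2 : ℤ) ^ (n + 1) = 2 * 2 ^ n := by ring
    have e4 : (4 : ℤ) ^ (n + 1) = 4 * 4 ^ n := by ring
    have hdet : |d1 * x2 - d2 * x1| ≤ 2 ^ n - 1 := by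
      rw [abs_le]
      have c1 : d1 = 0 ∨ d1 = 1 := by omega
      have c2 : d2 = 0 ∨ d2 = 1 := by omega
      rcases c1 with rfl | rfl <;> rcases c2 with rfl | rfl <;> constructor <;> omega
    refine ⟨by omega, by omega, by omega, by omega, ?_⟩
    rw [abs_le] at hdet
    have l5' := l5
    have habs : |d3 + 4 * x3 + 2 * (d1 * x2 - d2 * x1)| ≤ 3 + 4 * |x3| + 2 * (2 ^ n - 1) := by
      rw [abs_le]
      have := neg_abs_le x3
      have := le_abs_self x3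
      constructor <;> linarith [hdet.1, hdet.2]
    rw [e2, e4]
    linarith

lemma disc_lt (n : ℕ) : ∀ x ∈ A n, ∀ y ∈ A n, |disc x y| < 4 * 4 ^ n := by
  intro x hx y hy
  obtain ⟨k1, k2, k3, k4, k5⟩ := A_bound n x hx
  obtain ⟨l1, l2, l3, l4, l5⟩ := A_bound n y hy
  have hx3 := abs_le.1 (show |x.2.2| ≤ |x.2.2| from le_rfl)
  have hy3 := abs_le.1 (show |y.2.2| ≤ |y.2.2| from le_rfl)
  have e : (4 : ℤ) ^ n = 2 ^ n * 2 ^ n := by
    rw [← mul_pow]; norm_num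
  have hp : (0 : ℤ) < 2 ^ n := by positivity
  have m1 : 0 ≤ x.1 * y.2.1 := mul_nonneg k1 l3
  have m2 : 0 ≤ x.2.1 * y.1 := mul_nonneg k3 l1
  have m3 : x.1 * y.2.1 ≤ 2 ^ n * 2 ^ n :=
    mul_le_mul (by linarith) (by linarith) l3 hp.le
  have m4 : x.2.1 * y.1 ≤ 2 ^ n * 2 ^ n :=
    mul_le_mul (by linarith) (by linarith) l1 hp.le
  simp only [disc]
  rw [abs_lt]
  constructor <;> nlinarith [hx3.1, hx3.2, hy3.1, hy3.2]


lemma big_prime_pow {K : Type*} [Field K] (p : ℕ) [CharP K p] {n : ℕ} (hp : 4 * 4 ^ n ≤ p) :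
    Big K (8 ^ n) := by
  classical
  have h0 : Fam (fun x : A n => ((x.1.1 : K), (x.1.2.1 : K), (x.1.2.2 : K))) := by
    intro x y hxy h
    have h1 := A_disc n x.1 x.2 y.1 y.2 (fun h => hxy (Subtype.ext h))
    have h2 := disc_lt n x.1 x.2 y.1 y.2
    have h3 : ((disc x.1 y.1 : ℤ) : K) = 0 := by
      rw [← h]
      simp [disc, dis]
    rw [CharP.intCast_eq_zero_iff K p] at h3
    have h4 := Int.le_of_dvd (abs_pos.2 h1) ((dvd_abs _ _).2 h3)
    have h5 : ((4 * 4 ^ n : ℕ) : ℤ) ≤ p := by exact_mod_cast hp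
    push_cast at h5
    linarith
  exact h0.big (by rw [Fintype.card_coe, A_card])

lemma big_prime {K : Type*} [Field K] (p : ℕ) [hpp : Fact p.Prime] [CharP K p] :
    ∃ m : ℕ, (p : ℝ) ^ (3 / 2 : ℝ) / 64 ≤ m ∧ Big K m := by
  have hp2 := hpp.out.two_le
  have h4 : ((4 : ℝ) ^ (3 / 2 : ℝ)) = 8 := by
    rw [show (4 : ℝ) = 2 ^ (2 : ℝ) by norm_num, ← Real.rpow_mul (by norm_num)]
    norm_num
  by_cases hp4 : p < 4
  · refine ⟨1, ?_, {(0, 0, 0)}, by simp, ?_⟩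
    · have h3 : (p : ℝ) ^ (3 / 2 : ℝ) ≤ 4 ^ (3 / 2 : ℝ) := by
        apply Real.rpow_le_rpow (by positivity) (by exact_mod_cast hp4.le) (by norm_num)
      rw [h4] at h3
      push_cast
      linarith
    · intro s hs t ht hst
      rw [Finset.mem_singleton] at hs ht
      exact absurd (hs.trans ht.symm) hst
  · push Not at hp4
    have hlog : p ≠ 0 := by omega
    obtain ⟨n, hn'⟩ : ∃ n, Nat.log 4 p = n + 1 := by
      have : 1 ≤ Nat.log 4 p := Nat.log_pos (by norm_num) hp4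
      exact ⟨Nat.log 4 p - 1, by omega⟩
    have h1 : 4 ^ (n + 1) ≤ p := by
      rw [← hn']; exact Nat.pow_log_le_self 4 hlog
    have h2 : p < 4 ^ (n + 2) := by
      have := Nat.lt_pow_succ_log_self (b := 4) (by norm_num) p
      rw [hn'] at this
      exact this
    refine ⟨8 ^ n, ?_, big_prime_pow p (by rw [pow_succ] at h1; linarith)⟩
    have h5 : (p : ℝ) ^ (3 / 2 : ℝ) ≤ ((4 : ℝ) ^ (n + 2)) ^ (3 / 2 : ℝ) := by
      apply Real.rpow_le_rpow (by positivity) (by exact_mod_cast h2.le) (by norm_num)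
    have h6 : ((4 : ℝ) ^ (n + 2)) ^ (3 / 2 : ℝ) = 8 ^ (n + 2) := by
      rw [← Real.rpow_natCast, ← Real.rpow_mul (by norm_num), mul_comm, Real.rpow_mul (by norm_num),
        h4, Real.rpow_natCast]
    rw [h6] at h5
    have h8 : (8 : ℝ) ^ (n + 2) = 64 * 8 ^ n := by ring
    rw [h8] at h5
    push_cast
    linarith

end Pool.Agent.helper11.SG
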