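import Pool.Agent.helper11.SG.Cube

/-! # Fields with `r²` elements: an anisotropic binary cubic form over the subfield -/

namespace Pool.Agent.helper11.SG

open Polynomial

lemma card_antifix_le {K : Type*} [Field K] [Finite K] {r : ℕ} (hr : 1 < r) :
    Nat.card {x : K // x ^ r = -x} ≤ r := by
  classical
  have := Fintype.ofFinite K
  have hp : (X ^ r + X : K[X]) ≠ 0 := by
    intro h
    have := congrArg (fun P => P.coeff r) h
    simp [coeff_X, hr.ne] at this
  have h1 : Nat.card {x : K // x ^ r = -x} ≤ (X ^ r + X : K[X]).roots.toFinset.card := by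
    rw [Nat.card_eq_fintype_card, Fintype.card_subtype]
    apply Finset.card_le_card
    intro x hx
    simp only [Finset.mem_filter, Finset.mem_univ, true_and] at hx
    rw [Multiset.mem_toFinset, mem_roots hp]
    simp [IsRoot, hx]
  have h2 : (X ^ r + X : K[X]).natDegree = r := by
    apply natDegree_eq_of_degree_eq_some
    rw [degree_add_eq_left_of_degree_lt]
    · simp
    · rw [degree_X_pow, degree_X]
      exact_mod_cast hr
  calc _ ≤ _ := h1
    _ ≤ (X ^ r + X : K[X]).roots.card := Multiset.toFinset_card_le _
    _ ≤ (X ^ r + X : K[X]).natDegree := card_roots' _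
    _ = r := h2

lemma exists_not_range_cub {k : Type*} [Field k] [Finite k] :
    ∃ c : k, ∀ x : k, x ^ 3 - x ≠ c := by
  have h1 : ¬ Function.Injective (fun x : k => x ^ 3 - x) := by
    intro h
    have := h (show (fun x : k => x ^ 3 - x) 0 = (fun x : k => x ^ 3 - x) 1 by simp)
    simp at this
  have h2 : ¬ Function.Surjective (fun x : k => x ^ 3 - x) := by
    intro h
    exact h1 (Finite.injective_iff_surjective.2 h)
  simp only [Function.Surjective, not_forall, not_exists] at h2
  exact h2

lemma big_square {K : Type*} [Field K] [Finite K] {r : ℕ} (hr : Nat.card K = r ^ 2) :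
    Big K (r ^ 3) := by
  classical
  have := Fintype.ofFinite K
  obtain ⟨φ, hφ⟩ := exists_frob hr (by norm_num)
  have hr1 : 1 < r := by
    by_contra h
    have h1 : 1 < Nat.card K := Finite.one_lt_card
    rw [hr] at h1
    interval_cases r <;> omega
  have hφ2 : ∀ x, φ (φ x) = x := by
    intro x
    rw [hφ, hφ, ← pow_mul, ← sq, ← hr, Nat.card_eq_fintype_card, FiniteField.pow_card]
  -- the subfield
  let k : Subfield K := φ.eqLocusField (RingHom.id K)
  have hk : ∀ x, x ∈ k ↔ φ x = x := fun x => Iff.rfl
  have hkcard : r ≤ Nat.card k := by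
    let T : K →+ K := (AddMonoidHom.id K) - φ.toAddMonoidHom
    have hT : ∀ x, T x = x - φ x := fun x => rfl
    have h1 := T.ker.card_mul_index
    rw [AddSubgroup.index_ker, hr] at h1
    have h2 : Nat.card T.range ≤ r := by
      refine le_trans ?_ (card_antifix_le (K := K) hr1)
      apply Nat.card_le_card_of_injective
        (fun y : T.range => (⟨y.1, by
          obtain ⟨x, hx⟩ := y.2
          rw [← hx, ← hφ, hT, map_sub, hφ2, neg_sub]⟩ : {x : K // x ^ r = -x}))
      intro a b hab
      have h9 := congrArg (fun z : {x : K // x ^ r = -x} => z.1) hab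
      exact Subtype.ext h9
    have h3 : Nat.card T.ker ≤ Nat.card k := by
      apply Nat.card_le_card_of_injective
        (fun y : T.ker => (⟨y.1, by
          rw [hk]
          have : T y.1 = 0 := y.2
          rw [hT] at this
          exact (sub_eq_zero.1 this).symm⟩ : k))
      intro a b hab
      have h9 := congrArg (fun z : k => z.1) hab
      exact Subtype.ext h9
    by_contra h4
    push Not at h4
    have h5 : Nat.card T.ker * Nat.card T.range ≤ Nat.card T.ker * r := Nat.mul_le_mul_left _ h2
    have h6 : Nat.card T.ker * r < r * r := Nat.mul_lt_mul_of_pos_right (h3.trans_lt h4) (by omega)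
    have h7 : r * r = r ^ 2 := by ring
    have h1' : Nat.card T.ker * Nat.card T.range = r ^ 2 := h1
    omega
  obtain ⟨ω, hω⟩ : ∃ ω : K, ω ∉ k := by
    by_contra h
    push Not at h
    have h1 : Nat.card K ≤ Nat.card {x : K // x ^ r = x} := by
      apply Nat.card_le_card_of_injective (fun x : K => (⟨x, by
        rw [← hφ]; exact (hk x).1 (h x)⟩ : {x : K // x ^ r = x}))
      intro a b hab
      exact congrArg (fun z : {x : K // x ^ r = x} => z.1) hab
    have h2 := card_fix_le (K := K) hr1
    rw [hr] at h1
    nlinarith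
  obtain ⟨c, hc⟩ := exists_not_range_cub (k := k)
  let s : k := ⟨ω + φ ω, by rw [hk, map_add, hφ2, add_comm]⟩
  let n : k := ⟨-(ω * φ ω), by rw [hk, map_neg, map_mul, hφ2, mul_comm]⟩
  have hsq : ω ^ 2 = s * ω + n := by
    simp only [s, n]; ring
  let C : k → k → k := fun a b => a ^ 3 - a * b ^ 2 - c * b ^ 3
  let D0 : k → k → k := fun a b => 3 * a ^ 2 - b ^ 2
  let D1 : k → k → k := fun a b => -(2 * a * b) - 3 * c * b ^ 2
  have hC : ∀ a b : k, C a b = 0 → a = 0 ∧ b = 0 := by
    intro a b h
    by_cases hb : b = 0
    · subst hb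
      simp only [C] at h
      have : a ^ 3 = 0 := by linear_combination h
      exact ⟨pow_eq_zero_iff (by norm_num) |>.1 this, rfl⟩
    · exfalso
      apply hc (a / b)
      have h3 : C a b / b ^ 3 = 0 := by rw [h, zero_div]
      have h4 : (a / b) ^ 3 - a / b - c = 0 := by
        rw [← h3]
        simp only [C]
        field_simp
      linear_combination h4
  let P : k × k × k → K × K × K := fun v =>
    ((v.1 : K) + v.2.1 * ω, ((D1 v.1 v.2.1 - s * D0 v.1 v.2.1 : k) : K) + (D0 v.1 v.2.1 : K) * ω,
      (v.2.2 : K) + (C v.1 v.2.1 : K) * ω)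
  refine Fam.big (P := P) ?_ ?_
  · rintro ⟨a, b, u⟩ ⟨a', b', u'⟩ hvw h
    have key : dis (P (a, b, u)) (P (a', b', u')) =
        ((u' - u - (a * (D1 a' b' - s * D0 a' b') - a' * (D1 a b - s * D0 a b)
          + n * (b * D0 a' b' - b' * D0 a b)) : k) : K) + ((-C (a - a') (b - b') : k) : K) * ω := by
      simp only [dis, P, C, D0, D1]
      push_cast
      have h1 : ω * ω = s * ω + n := by rw [← sq]; exact hsq
      have e2 : ((2 : k) : K) = 2 := rfl
      have e3 : ((3 : k) : K) = 3 := rfl
      rw [e2, e3]
      linear_combination (-((b : K) * (3 * (a' : K) ^ 2 - (b' : K) ^ 2)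
        - (b' : K) * (3 * (a : K) ^ 2 - (b : K) ^ 2))) * h1
    rw [h] at key
    by_cases hCz : C (a - a') (b - b') = 0
    · obtain ⟨h1, h2⟩ := hC _ _ hCz
      have h1' : a = a' := sub_eq_zero.1 h1
      have h2' : b = b' := sub_eq_zero.1 h2
      subst h1' h2'
      apply hvw
      rw [hCz] at key
      have h3 : ((u' - u : k) : K) = 0 := by
        have e : (u' - u - (a * (D1 a b - s * D0 a b) - a * (D1 a b - s * D0 a b)
          + n * (b * D0 a b - b * D0 a b)) : k) = u' - u := by ring
        rw [e] at key
        simpa using key.symm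
      have h4 : u' - u = 0 := by exact_mod_cast h3
      rw [sub_eq_zero.1 h4]
    · apply hω
      set A : k := (u' - u - (a * (D1 a' b' - s * D0 a' b') - a' * (D1 a b - s * D0 a b)
          + n * (b * D0 a' b' - b' * D0 a b)) : k)
      set B : k := C (a - a') (b - b')
      have hB : (B : K) ≠ 0 := by exact_mod_cast hCz
      have h5 : ω = ((A / B : k) : K) := by
        push_cast
        field_simp
        push_cast at key
        linear_combination key
      rw [h5]
      exact (A / B).2
  · rw [Fintype.card_prod, Fintype.card_prod, ← Nat.card_eq_fintype_card]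
    calc r ^ 3 = r * (r * r) := by ring
      _ ≤ _ := Nat.mul_le_mul hkcard (Nat.mul_le_mul hkcard hkcard)

end Pool.Agent.helper11.SG
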