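import Mathlib

/-! # Independent sets in the graph of a linear complex: the Heisenberg form

`dis s t` is the value of the standard alternating form at two affine points.
-/

namespace Pool.Agent.helper11.SG

/-- the alternating form at two affine points -/
def dis {A : Type*} [CommRing A] (s t : A × A × A) : A :=
  t.2.2 - s.2.2 - (s.1 * t.2.1 - s.2.1 * t.1)

lemma dis_self {A : Type*} [CommRing A] (s : A × A × A) : dis s s = 0 := by
  unfold dis; ring

/-- a family of points with pairwise nonzero values -/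
def Fam {A : Type*} [CommRing A] {ι : Type*} (P : ι → A × A × A) : Prop :=
  ∀ i j, i ≠ j → dis (P i) (P j) ≠ 0

/-- there are `n` affine points with pairwise nonzero values -/
def Big (A : Type*) [CommRing A] (n : ℕ) : Prop :=
  ∃ S : Finset (A × A × A), n ≤ S.card ∧ ∀ s ∈ S, ∀ t ∈ S, s ≠ t → dis s t ≠ 0

lemma Fam.inj {A : Type*} [CommRing A] {ι : Type*} {P : ι → A × A × A} (h : Fam P) :
    Function.Injective P := by
  intro i j hij
  by_contra hne
  apply h i j hne
  rw [hij]
  exact dis_self _

lemma Fam.big {A : Type*} [CommRing A] {ι : Type*} [Fintype ι] {P : ι → A × A × A} (h : Fam P)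
    {n : ℕ} (hn : n ≤ Fintype.card ι) : Big A n := by
  classical
  refine ⟨Finset.univ.image P, ?_, ?_⟩
  · rw [Finset.card_image_of_injective _ h.inj, Finset.card_univ]
    exact hn
  · intro s hs t ht hst
    simp only [Finset.mem_image, Finset.mem_univ, true_and] at hs ht
    obtain ⟨i, rfl⟩ := hs
    obtain ⟨j, rfl⟩ := ht
    exact h i j (fun hij => hst (by rw [hij]))

/-! ### Even fields -/

lemma exists_not_range_sq {K : Type*} [Field K] [Finite K] :
    ∃ c : K, ∀ x : K, x ^ 2 + x ≠ c := by
  have h1 : ¬ Function.Injective (fun x : K => x ^ 2 + x) := by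
    intro h
    have := h (show (fun x : K => x ^ 2 + x) 0 = (fun x : K => x ^ 2 + x) (-1) by simp)
    simp at this
  have h2 : ¬ Function.Surjective (fun x : K => x ^ 2 + x) := by
    intro h
    exact h1 (Finite.injective_iff_surjective.2 h)
  simp only [Function.Surjective, not_forall, not_exists] at h2
  exact h2

lemma big_even {K : Type*} [Field K] [Finite K] (h2 : (2 : K) = 0) :
    Big K (Nat.card K ^ 2) := by
  have := Fintype.ofFinite K
  obtain ⟨c, hc⟩ := exists_not_range_sq (K := K)
  have hQ : ∀ x y : K, x ^ 2 + x * y + c * y ^ 2 = 0 → x = 0 ∧ y = 0 := by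
    intro x y h
    by_cases hy : y = 0
    · subst hy
      simp at h
      exact ⟨h, rfl⟩
    · exfalso
      apply hc (x / y)
      have h3 : (x ^ 2 + x * y + c * y ^ 2) / y ^ 2 = 0 := by rw [h, zero_div]
      have h4 : (x / y) ^ 2 + x / y + c = 0 := by
        rw [← h3]; field_simp
      have h5 : c + c = 0 := by rw [← two_mul, h2, zero_mul]
      linear_combination h4 - h5
  refine Fam.big (P := fun v : K × K => (v.1, v.2, v.1 ^ 2 + v.1 * v.2 + c * v.2 ^ 2)) ?_
    (by rw [Fintype.card_prod, Nat.card_eq_fintype_card, sq])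
  intro v w hvw h
  apply hvw
  have h3 := hQ (v.1 - w.1) (v.2 - w.2) (by
    simp only [dis] at h
    have e : (v.1 - w.1) ^ 2 + (v.1 - w.1) * (v.2 - w.2) + c * (v.2 - w.2) ^ 2 =
        (w.1 ^ 2 + w.1 * w.2 + c * w.2 ^ 2 - (v.1 ^ 2 + v.1 * v.2 + c * v.2 ^ 2) -
          (v.1 * w.2 - v.2 * w.1)) + 2 * (v.1 ^ 2 + v.1 * v.2 + c * v.2 ^ 2 - v.1 * w.1
            - v.2 * w.1 - c * v.2 * w.2) := by ring
    rw [e, h, h2]; ring)
  exact Prod.ext (sub_eq_zero.1 h3.1) (sub_eq_zero.1 h3.2)

end Pool.Agent.helper11.SG
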