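import Pool.Agent.helper11.SG.Basic

/-! # Fields with `r³` elements: points of the norm-trace surface -/

namespace Pool.Agent.helper11.SG

open Polynomial

/-- Frobenius to the power `r`, as an additive map -/
lemma exists_frob {K : Type*} [Field K] [Finite K] {r k : ℕ} (hr : Nat.card K = r ^ k)
    (hk : k ≠ 0) : ∃ φ : K →+* K, ∀ x, φ x = x ^ r := by
  have := Fintype.ofFinite K
  obtain ⟨p, hp⟩ := CharP.exists K
  have := hp
  obtain ⟨n, hpp, hn⟩ := FiniteField.card K p
  have : Fact p.Prime := ⟨hpp⟩
  rw [Nat.card_eq_fintype_card, hn] at hr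
  have hrp : r ∣ p ^ (n : ℕ) := by rw [hr]; exact dvd_pow_self r hk
  obtain ⟨m, -, hm⟩ := (Nat.dvd_prime_pow hpp).1 hrp
  refine ⟨iterateFrobenius K p m, fun x => ?_⟩
  rw [iterateFrobenius_def, hm]

lemma card_fix_le {K : Type*} [Field K] [Finite K] {r : ℕ} (hr : 1 < r) :
    Nat.card {x : K // x ^ r = x} ≤ r := by
  classical
  have := Fintype.ofFinite K
  have hp : (X ^ r - X : K[X]) ≠ 0 := by
    intro h
    have := congrArg (fun P => P.coeff r) h
    simp [coeff_X, hr.ne] at this
  have h1 : Nat.card {x : K // x ^ r = x} ≤ (X ^ r - X : K[X]).roots.toFinset.card := by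
    rw [Nat.card_eq_fintype_card, Fintype.card_subtype]
    apply Finset.card_le_card
    intro x hx
    simp only [Finset.mem_filter, Finset.mem_univ, true_and] at hx
    rw [Multiset.mem_toFinset, mem_roots hp]
    simp [IsRoot, hx]
  have h2 : (X ^ r - X : K[X]).natDegree = r := by
    apply natDegree_eq_of_degree_eq_some
    rw [degree_sub_eq_left_of_degree_lt]
    · simp
    · rw [degree_X_pow, degree_X]
      exact_mod_cast hr
  calc _ ≤ _ := h1
    _ ≤ (X ^ r - X : K[X]).roots.card := Multiset.toFinset_card_le _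
    _ ≤ (X ^ r - X : K[X]).natDegree := card_roots' _
    _ = r := h2

lemma big_cube {K : Type*} [Field K] [Finite K] {r : ℕ} (hr : Nat.card K = r ^ 3) :
    Big K (r ^ 5) := by
  classical
  have := Fintype.ofFinite K
  obtain ⟨φ, hφ⟩ := exists_frob hr (by norm_num)
  have hr1 : 1 < r := by
    by_contra h
    have h1 : 1 < Nat.card K := Finite.one_lt_card
    rw [hr] at h1
    interval_cases r <;> omega
  have hφ3 : ∀ x, φ (φ (φ x)) = x := by
    intro x
    rw [hφ, hφ, hφ, ← pow_mul, ← pow_mul, ← pow_three, ← hr, Nat.card_eq_fintype_card,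
      FiniteField.pow_card]
  -- the trace
  let T : K →+ K := (AddMonoidHom.id K) + φ.toAddMonoidHom + (φ.comp φ).toAddMonoidHom
  have hT : ∀ x, T x = x + φ x + φ (φ x) := fun x => rfl
  have hTfix : ∀ x, φ (T x) = T x := by
    intro x
    rw [hT, map_add, map_add, hφ3]; ring
  -- some element of nonzero trace
  obtain ⟨c, hc⟩ : ∃ c, T c ≠ 0 := by
    by_contra h
    push Not at h
    have hp : (X ^ (r ^ 2) + X ^ r + X : K[X]) ≠ 0 := by
      intro h0
      have := congrArg (fun P => P.coeff 1) h0
      have e1 : (1 : ℕ) ≠ r := by omega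
      have e2 : (1 : ℕ) ≠ r ^ 2 := by nlinarith
      simp [coeff_X, coeff_X_pow, e1, e2] at this
    have h1 : (Finset.univ : Finset K).card ≤ (X ^ (r ^ 2) + X ^ r + X : K[X]).roots.toFinset.card := by
      apply Finset.card_le_card
      intro x _
      rw [Multiset.mem_toFinset, mem_roots hp]
      have h2 := h x
      rw [hT, hφ, hφ, ← pow_mul] at h2
      simp only [IsRoot, eval_add, eval_pow, eval_X]
      rw [sq]
      linear_combination h2
    have h2 : (X ^ (r ^ 2) + X ^ r + X : K[X]).natDegree ≤ r ^ 2 := by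
      apply natDegree_le_of_degree_le
      refine (degree_add_le _ _).trans (max_le ((degree_add_le _ _).trans (max_le ?_ ?_)) ?_)
      · rw [degree_X_pow]
      · rw [degree_X_pow]
        have : r ≤ r ^ 2 := by nlinarith
        exact_mod_cast this
      · rw [degree_X]
        have : 1 ≤ r ^ 2 := by nlinarith
        exact_mod_cast this
    have h3 : Fintype.card K ≤ r ^ 2 :=
      h1.trans ((Multiset.toFinset_card_le _).trans ((card_roots' _).trans h2))
    rw [← Nat.card_eq_fintype_card, hr] at h3
    nlinarith [pow_pos (by omega : 0 < r) 2]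
  -- the kernel of the trace
  have hker : r ^ 2 ≤ Nat.card T.ker := by
    have h1 := T.ker.card_mul_index
    rw [AddSubgroup.index_ker, hr] at h1
    have h2 : Nat.card T.range ≤ r := by
      refine le_trans ?_ (card_fix_le (K := K) hr1)
      apply Nat.card_le_card_of_injective
        (fun y : T.range => (⟨y.1, by
          obtain ⟨x, hx⟩ := y.2
          rw [← hx, ← hφ, hTfix]⟩ : {x : K // x ^ r = x}))
      intro a b hab
      have h9 := congrArg (fun z : {x : K // x ^ r = x} => z.1) hab
      exact Subtype.ext h9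
    by_contra h3
    push Not at h3
    have h4 : Nat.card T.ker * Nat.card T.range ≤ Nat.card T.ker * r := Nat.mul_le_mul_left _ h2
    have h5 : Nat.card T.ker * r < r ^ 2 * r := Nat.mul_lt_mul_of_pos_right h3 (by omega)
    have h6 : r ^ 2 * r = r ^ 3 := by ring
    have h1' : Nat.card T.ker * Nat.card T.range = r ^ 3 := h1
    omega
  let N : K → K := fun a => a * φ a * φ (φ a)
  have hNfix : ∀ a, φ (N a) = N a := by
    intro a
    simp only [N, map_mul, hφ3]; ring
  let d : K := (T c)⁻¹
  have hdfix : φ d = d := by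
    simp only [d, map_inv₀, hTfix]
  have hTN : ∀ a, T (c * d * N a) = N a := by
    intro a
    rw [hT]
    simp only [map_mul, hdfix, hNfix]
    have h1 : (c + φ c + φ (φ c)) * d = 1 := by
      simp only [d]
      rw [← hT]
      exact mul_inv_cancel₀ hc
    linear_combination (N a) * h1
  let P : K × T.ker → K × K × K := fun v => (v.1, φ v.1 * φ (φ v.1), c * d * N v.1 + v.2.1)
  refine Fam.big (P := P) ?_ ?_
  · rintro ⟨a, u⟩ ⟨b, u'⟩ hvw h
    simp only [P, dis] at h
    have hu : T u.1 = 0 := u.2
    have hu' : T u'.1 = 0 := u'.2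
    have h1 := congrArg T h
    rw [map_zero, map_sub, map_sub, map_add, map_add, hTN, hTN, hu, hu', hT] at h1
    simp only [map_sub, map_mul, hφ3] at h1
    have h2 : (a - b) * (φ a - φ b) * (φ (φ a) - φ (φ b)) = 0 := by
      simp only [N] at h1
      linear_combination (-1 : K) * h1
    have h3 : a = b := by
      by_contra hab
      have h4 : a - b ≠ 0 := sub_ne_zero.2 hab
      have h5 : φ a - φ b ≠ 0 := by
        rw [← map_sub]; exact (map_ne_zero φ).2 h4
      have h6 : φ (φ a) - φ (φ b) ≠ 0 := by
        rw [← map_sub]; exact (map_ne_zero φ).2 h5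
      exact mul_ne_zero (mul_ne_zero h4 h5) h6 h2
    subst h3
    apply hvw
    have h7 : u'.1 = u.1 := by linear_combination h
    exact Prod.ext rfl (Subtype.ext h7.symm)
  · rw [Fintype.card_prod, ← Nat.card_eq_fintype_card, ← Nat.card_eq_fintype_card (α := T.ker), hr]
    calc r ^ 5 = r ^ 3 * r ^ 2 := by ring
      _ ≤ _ := Nat.mul_le_mul_left _ hker

end Pool.Agent.helper11.SG
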