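import Pool.Agent.helper68.SG.SpecK

/-!
# Module K02 of project sg: (MP_2b8aea_gt)

Poisson formula for a function holomorphic near the closed disc.
-/

set_option autoImplicit false

open MeasureTheory Set Metric Filter Topology
open scoped ENNReal NNReal ComplexConjugate

namespace Pool.Agent.SG

lemma K02_cont (R : ℝ) (H : ℂ → ℂ) (hR : 1 < R) (hH : DifferentiableOn ℂ H (ball 0 R)) (z : ℂ)
    (hz : ‖z‖ < 1) : ContinuousOn (fun ζ : ℂ => (poi z ζ : ℂ) * H ζ) circ := by
  have hsub : circ ⊆ ball (0 : ℂ) R := by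
    intro ζ hζ
    have h1 : ‖ζ‖ = 1 := by simpa [circ] using hζ
    rw [mem_ball_zero_iff, h1]
    exact hR
  refine ContinuousOn.mul ?_ (hH.continuousOn.mono hsub)
  refine Complex.continuous_ofReal.comp_continuousOn ?_
  unfold poi
  refine ContinuousOn.div continuousOn_const (by fun_prop) fun ζ hζ => ?_
  have h1 : ‖ζ‖ = 1 := by simpa [circ] using hζ
  have h2 : ζ - z ≠ 0 := by
    intro h
    rw [sub_eq_zero] at h
    rw [← h] at hz
    linarith
  exact pow_ne_zero 2 (norm_ne_zero_iff.2 h2)

theorem K02 (hK01 : K01_stmt) : K02_stmt := by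
  intro R H hR hH z hz
  obtain ⟨-, hcirc, hint⟩ := hK01
  have hmeas : MeasurableSet circ := isClosed_sphere.measurableSet
  have hrest : lam.restrict circ = lam :=
    Measure.restrict_eq_self_of_ae_mem (ae_iff.2 hcirc)
  have hg : AEStronglyMeasurable (fun ζ : ℂ => (poi z ζ : ℂ) * H ζ) lam := by
    rw [← hrest]
    exact (K02_cont R H hR hH z hz).aestronglyMeasurable hmeas
  rw [hint _ hg]
  have hD : DiffContOnCl ℂ H (ball 0 1) :=
    hH.diffContOnCl_ball (closedBall_subset_ball hR)
  have h1 := hD.circleAverage_poissonKernel_smul (w := z) (by simpa using hz)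
  rw [← h1]
  refine Real.circleAverage_congr_sphere fun ζ hζ => ?_
  have h2 : ‖ζ‖ = 1 := by simpa using hζ
  simp only [Pi.smul_apply', poissonKernel_def, sub_zero, h2, poi,
    Complex.real_smul, one_pow]

end Pool.Agent.SG
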