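import Pool.Agent.helper17.SG.SpecR

/-!
# Module R05 of project sg: (MP_2b8aea_gt)

Layers.
-/

set_option autoImplicit false

open MeasureTheory Set Metric Filter Topology
open scoped ENNReal NNReal ComplexConjugate

namespace Pool.Agent.SG

lemma R05_hdn {Γ : Type} [Group Γ] (W : Walk Γ) (D : Set Γ) (w : Γ) (hw : w ∉ D) :
    ∀ (n : ℕ) (x : Γ), W.hdn D n x w = 0 := by
  intro n
  induction n with
  | zero =>
    intro x
    unfold Walk.hdn
    rw [if_neg]
    rintro ⟨hx, rfl⟩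
    exact hw hx
  | succ n ih =>
    intro x
    unfold Walk.hdn
    split_ifs with hx hxw
    · rw [hxw] at hx
      exact absurd hx hw
    · refine Finset.sum_eq_zero fun s _ => ?_
      rw [ih, mul_zero]
    · rfl

lemma R05_hid {Γ : Type} [Group Γ] (W : Walk Γ) (D : Set Γ) (x w : Γ) (hw : w ∉ D) :
    W.hid D x w = 0 := by
  unfold Walk.hid
  simp only [R05_hdn W D w hw, ENNReal.iSup_eq_zero, implies_true]

theorem R05 (hP05 : P05_stmt) (hP09 : P09_stmt) (hB09 : B09_stmt) (hB10 : B10_stmt)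
    (hB18 : B18_stmt) : R05_stmt := by
  classical
  intro Γ _ A W hA
  obtain ⟨M₀, hM₀, hjump⟩ := hB10 Γ A (W.S.image fun s => s⁻¹)
  refine ⟨M₀, hM₀, fun M hM => ?_⟩
  have hM1 : 1 ≤ M := hM₀.trans hM
  obtain ⟨C, hC, hlay⟩ := hB09 Γ A hA M hM1
  refine ⟨C, hC, fun u t hu ht ht1 => ?_⟩
  obtain ⟨-, hexi, hex3, -, -, -⟩ := hP05 Γ W {γ | t ≤ A.Hu u γ}
  obtain ⟨-, -, hB3, -⟩ := hB18 Γ A u hu
  have ha : ∀ x w, t ≤ A.Hu u x → W.exi {γ | t ≤ A.Hu u γ} x w ≠ 0 → w ∈ lay A u M t := by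
    intro x w hx hne
    obtain ⟨hw, hcase⟩ := hex3 x w hne
    have hwt : A.Hu u w < t := not_le.1 hw
    rcases hcase with rfl | ⟨y, hy, s, hs, rfl⟩
    · exact absurd hx hw
    · have h1 := (hjump (y * s) s⁻¹ (Finset.mem_image_of_mem _ hs)).2.2.2 u hu
      have h2 := h1.2 (hwt.le.trans ht1)
      rw [mul_inv_cancel_right] at h2
      have hy' : t ≤ A.Hu u y := hy
      have hk : 0 ≤ A.kk (y * s) := by
        have h3 : 0 ≤ M₀ * A.kk (y * s) := (abs_nonneg _).trans h2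
        exact nonneg_of_mul_nonneg_right h3 (by linarith)
      have h4 : A.Hu u y - A.Hu u (y * s) ≤ M₀ * A.kk (y * s) := (le_abs_self _).trans h2
      have h5 : M₀ * A.kk (y * s) ≤ M * A.kk (y * s) := mul_le_mul_of_nonneg_right hM hk
      refine ⟨hwt, ?_⟩
      rw [abs_sub_comm, abs_of_nonneg (by linarith)]
      linarith
  refine ⟨ha, ?_, ?_, ?_⟩
  · intro x w hx hw
    have h1 := hP09 Γ W {γ | t ≤ A.Hu u γ} x w
    have hwD : w ∉ {γ | t ≤ A.Hu u γ} := fun h => absurd (show t ≤ A.Hu u w from h) (not_le.2 hw)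
    rw [R05_hid W _ x w hwD, zero_add] at h1
    refine h1.trans (ENNReal.tsum_le_tsum fun p => ?_)
    by_cases h0 : W.exi {γ | t ≤ A.Hu u γ} x p = 0
    · rw [h0, zero_mul]
      exact zero_le
    · rw [indicator_of_mem (ha x p hx h0)]
      exact mul_le_mul' (hexi x p) le_rfl
  · rintro w ⟨hw, habs⟩
    have hw1 : A.Hu u w ≤ 1 := hw.le.trans ht1
    have h1 := (hB3 w hw1).1
    have h2 : t - A.Hu u w ≤ M * A.kk w := by
      rw [abs_sub_comm] at habs
      exact (le_abs_self _).trans habs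
    have h3 : M * A.kk w ≤ M * (4 * A.Hu u w) := mul_le_mul_of_nonneg_left h1 (by linarith)
    refine ⟨?_, by linarith⟩
    linarith
  · intro η hη
    refine le_trans (ENNReal.tsum_le_tsum fun γ => ?_) (hlay u t η hu ht ht1 hη)
    refine indicator_le_indicator_of_subset ?_ (fun _ => zero_le) γ
    rintro γ ⟨⟨hγ, hγ2⟩, hγ3⟩
    refine ⟨hγ.le.trans ht1, ?_, hγ2, hγ3⟩
    have : t ≤ M * t := le_mul_of_one_le_left ht.le hM1
    exact hγ.le.trans this

end Pool.Agent.SG
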