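import Pool.Agent.helper3.SG.SpecS

/-!
# Module S32 of project sg: (MP_2b8aea_gt)

Transport of dimension by a Moebius map.
-/

set_option autoImplicit false

open MeasureTheory Set Metric Filter Topology
open scoped ENNReal NNReal ComplexConjugate commutatorElement

namespace Pool.Agent.SG

lemma S32_det (p q : ℂ) (h : ‖p‖ ^ 2 - ‖q‖ ^ 2 = 1) : p * conj p - q * conj q = 1 := by
  rw [Complex.mul_conj, Complex.mul_conj, Complex.normSq_eq_norm_sq, Complex.normSq_eq_norm_sq,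
    ← Complex.ofReal_sub, h, Complex.ofReal_one]

lemma S32_gap (p q : ℂ) (h : ‖p‖ ^ 2 - ‖q‖ ^ 2 = 1) : 0 < ‖p‖ - ‖q‖ := by
  have h1 : 0 < (‖p‖ - ‖q‖) * (‖p‖ + ‖q‖) := by nlinarith
  have h2 : 0 ≤ ‖p‖ + ‖q‖ := by positivity
  exact pos_of_mul_pos_left h1 h2

lemma S32_den (p q ξ : ℂ) (hξ : ‖ξ‖ = 1) : ‖p‖ - ‖q‖ ≤ ‖conj q * ξ + conj p‖ := by
  have h1 : ‖conj p‖ ≤ ‖conj q * ξ + conj p‖ + ‖conj q * ξ‖ := by
    have := norm_sub_le (conj q * ξ + conj p) (conj q * ξ)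
    rwa [add_sub_cancel_left] at this
  rw [norm_mul, hξ, mul_one, RCLike.norm_conj, RCLike.norm_conj] at h1
  linarith

lemma S32_ne (p q ξ : ℂ) (h : ‖p‖ ^ 2 - ‖q‖ ^ 2 = 1) (hξ : ‖ξ‖ = 1) :
    conj q * ξ + conj p ≠ 0 := by
  intro h0
  have h1 := S32_den p q ξ hξ
  rw [h0, norm_zero] at h1
  linarith [S32_gap p q h]

lemma S32_circ (p q ξ : ℂ) (h : ‖p‖ ^ 2 - ‖q‖ ^ 2 = 1) (hξ : ‖ξ‖ = 1) : ‖mob p q ξ‖ = 1 := by
  unfold mob
  rw [norm_div]
  have h1 : ‖p * ξ + q‖ = ‖conj q * ξ + conj p‖ := by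
    have h2 : ξ * conj ξ = 1 := by
      rw [Complex.mul_conj, Complex.normSq_eq_norm_sq, hξ]
      norm_num
    have h3 : p * ξ + q = ξ * conj (conj q * ξ + conj p) := by
      simp only [map_add, map_mul, Complex.conj_conj]
      linear_combination (-q) * h2
    rw [h3, norm_mul, hξ, one_mul, RCLike.norm_conj]
  rw [h1]
  exact div_self (norm_ne_zero_iff.2 (S32_ne p q ξ h hξ))

lemma S32_conj (p q : ℂ) (h : ‖p‖ ^ 2 - ‖q‖ ^ 2 = 1) :
    ‖conj p‖ ^ 2 - ‖-q‖ ^ 2 = 1 := by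
  rw [RCLike.norm_conj, norm_neg]
  exact h

lemma S32_inv (p q ξ : ℂ) (h : ‖p‖ ^ 2 - ‖q‖ ^ 2 = 1) (hξ : ‖ξ‖ = 1) :
    mob (conj p) (-q) (mob p q ξ) = ξ := by
  have h1 := S32_ne p q ξ h hξ
  have h2 := S32_ne (conj p) (-q) (mob p q ξ) (S32_conj p q h) (S32_circ p q ξ h hξ)
  have hd := S32_det p q h
  have h3 : mob p q ξ * (conj q * ξ + conj p) = p * ξ + q := by
    unfold mob
    exact div_mul_cancel₀ _ h1
  show (conj p * mob p q ξ + -q) / (conj (-q) * mob p q ξ + conj (conj p)) = ξ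
  rw [div_eq_iff h2]
  apply mul_right_cancel₀ h1
  simp only [map_neg, Complex.conj_conj]
  linear_combination (conj p + ξ * conj q) * h3

lemma S32_lip (p q z w : ℂ) (h : ‖p‖ ^ 2 - ‖q‖ ^ 2 = 1) (hz : ‖z‖ = 1) (hw : ‖w‖ = 1) :
    ‖mob p q z - mob p q w‖ ≤ 1 / (‖p‖ - ‖q‖) ^ 2 * ‖z - w‖ := by
  have hz1 := S32_ne p q z h hz
  have hw1 := S32_ne p q w h hw
  have hd := S32_det p q h
  have h1 : mob p q z - mob p q w =
      (z - w) / ((conj q * z + conj p) * (conj q * w + conj p)) := by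
    unfold mob
    rw [div_sub_div _ _ hz1 hw1]
    congr 1
    linear_combination (z - w) * hd
  have hg := S32_gap p q h
  have hdz := S32_den p q z hz
  have hdw := S32_den p q w hw
  rw [h1, norm_div, norm_mul, one_div, mul_comm (((‖p‖ - ‖q‖) ^ 2)⁻¹), ← div_eq_mul_inv]
  refine div_le_div_of_nonneg_left (norm_nonneg _) (by positivity) ?_
  rw [sq]
  exact mul_le_mul hdz hdw hg.le (hg.le.trans hdz)

theorem S32 : S32_stmt := by
  intro p q h ν _ hν B hB h1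
  have hmob : Measurable (mob p q) := by
    unfold mob
    fun_prop
  have hcirc : MeasurableSet circ := isClosed_sphere.measurableSet
  rw [Measure.map_apply hmob hB] at h1
  refine ⟨circ ∩ mob p q ⁻¹' B, hcirc.inter (hmob hB), ?_, ?_⟩
  · refine le_antisymm prob_le_one ?_
    rw [← h1]
    calc ν (mob p q ⁻¹' B) ≤ ν ((circ ∩ mob p q ⁻¹' B) ∪ circᶜ) := by
          refine measure_mono fun ξ hξ => ?_
          by_cases hc : ξ ∈ circ
          · exact Or.inl ⟨hc, hξ⟩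
          · exact Or.inr hc
      _ ≤ ν (circ ∩ mob p q ⁻¹' B) + ν circᶜ := measure_union_le _ _
      _ = ν (circ ∩ mob p q ⁻¹' B) := by rw [hν, add_zero]
  · have hsub : circ ∩ mob p q ⁻¹' B ⊆ mob (conj p) (-q) '' (B ∩ circ) := by
      rintro ξ ⟨hξ, hξB⟩
      have hξ1 : ‖ξ‖ = 1 := by simpa [circ] using hξ
      refine ⟨mob p q ξ, ⟨hξB, ?_⟩, S32_inv p q ξ h hξ1⟩
      have := S32_circ p q ξ h hξ1
      simpa [circ] using this
    have hlip : LipschitzOnWith (1 / (‖conj p‖ - ‖-q‖) ^ 2).toNNReal (mob (conj p) (-q))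
        (B ∩ circ) := by
      refine LipschitzOnWith.of_dist_le_mul fun z hz w hw => ?_
      have hz1 : ‖z‖ = 1 := by simpa [circ] using hz.2
      have hw1 : ‖w‖ = 1 := by simpa [circ] using hw.2
      rw [dist_eq_norm, dist_eq_norm, Real.coe_toNNReal _ (by positivity)]
      exact S32_lip (conj p) (-q) z w (S32_conj p q h) hz1 hw1
    calc dimH (circ ∩ mob p q ⁻¹' B) ≤ dimH (mob (conj p) (-q) '' (B ∩ circ)) := dimH_mono hsub
      _ ≤ dimH (B ∩ circ) := hlip.dimH_image_le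
      _ ≤ dimH B := dimH_mono inter_subset_left

end Pool.Agent.SG
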